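import Pool.Agent.W544.PG.Defs

/-! # Part LG of the project PG -/

open Matrix Finset Module

namespace Pool.Agent.W507.PG

open Pool.Agent.W544.PG

section gen
variable {ι : Type} [Fintype ι] [DecidableEq ι]

lemma mem_com {S : Set (Matrix ι ι ℂ)} {x : Matrix ι ι ℂ} : x ∈ com S ↔ ∀ s ∈ S, x * s = s * x :=
  Iff.rfl

lemma star_com {A : Submodule ℂ (Matrix ι ι ℂ)} (hA : IsStar A) :
    IsStar (com (A : Set (Matrix ι ι ℂ))) := by
  refine ⟨?_, ?_, ?_⟩
  · intro s _
    rw [one_mul, mul_one]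
  · intro a ha b hb s hs
    rw [mul_assoc, hb s hs, ← mul_assoc, ha s hs, mul_assoc]
  · intro a ha s hs
    have h := ha sᴴ (hA.2.2 s hs)
    have h2 := congrArg conjTranspose h
    rw [conjTranspose_mul, conjTranspose_mul, conjTranspose_conjTranspose] at h2
    exact h2.symm

lemma scal (hspan : S_span) {A : Submodule ℂ (Matrix ι ι ℂ)} (hA : IsStar A) (hF : Factor A)
    {x : Matrix ι ι ℂ} (hx : x ∈ A) (hc : x ∈ com (A : Set (Matrix ι ι ℂ))) :
    ∃ c : ℂ, x = c • (1 : Matrix ι ι ℂ) := by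
  have hC := star_com hA
  have hZ : IsStar (A ⊓ com (A : Set (Matrix ι ι ℂ))) :=
    ⟨⟨hA.1, hC.1⟩, fun a ha b hb => ⟨hA.2.1 a ha.1 b hb.1, hC.2.1 a ha.2 b hb.2⟩,
      fun a ha => ⟨hA.2.2 a ha.1, hC.2.2 a ha.2⟩⟩
  have h1 := hspan ι (A ⊓ com (A : Set (Matrix ι ι ℂ))) hZ ⟨hx, hc⟩
  have h2 : Submodule.span ℂ {e | e ∈ A ⊓ com (A : Set (Matrix ι ι ℂ)) ∧ Proj e} ≤
      Submodule.span ℂ {(1 : Matrix ι ι ℂ)} := by
    rw [Submodule.span_le]
    rintro e ⟨he, hp⟩
    rcases hF e he.1 he.2 hp with h | h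
    · rw [h]
      exact Submodule.zero_mem _
    · rw [h]
      exact Submodule.mem_span_singleton_self _
  obtain ⟨c, hc⟩ := Submodule.mem_span_singleton.1 (h2 h1)
  exact ⟨c, hc.symm⟩

omit [DecidableEq ι] in
lemma zero_of_trace {X : Matrix ι ι ℂ} (h : (X * Xᴴ).trace = 0) : X = 0 := by
  open scoped ComplexOrder in
  exact Matrix.trace_mul_conjTranspose_self_eq_zero_iff.1 h

/-- a conditional expectation onto `A` -/
structure CE (A : Submodule ℂ (Matrix ι ι ℂ)) (E : Matrix ι ι ℂ →ₗ[ℂ] Matrix ι ι ℂ) : Prop where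
  mem : ∀ X, E X ∈ A
  fix : ∀ X ∈ A, E X = X
  tr : ∀ X, ∀ s ∈ A, (E X * s).trace = (X * s).trace
  left : ∀ a ∈ A, ∀ X, E (a * X) = a * E X
  right : ∀ a ∈ A, ∀ X, E (X * a) = E X * a

variable {A : Submodule ℂ (Matrix ι ι ℂ)} {E : Matrix ι ι ℂ →ₗ[ℂ] Matrix ι ι ℂ}

lemma CE.uniq (hE : CE A E) (hA : IsStar A) {X Y : Matrix ι ι ℂ} (hY : Y ∈ A)
    (h : ∀ s ∈ A, (Y * s).trace = (X * s).trace) : E X = Y := by
  have h0 : E X - Y = 0 := by
    apply zero_of_trace
    have hm : (E X - Y)ᴴ ∈ A := hA.2.2 _ (A.sub_mem (hE.mem X) hY)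
    rw [sub_mul, trace_sub, hE.tr X _ hm, h _ hm, sub_self]
  exact sub_eq_zero.1 h0

lemma CE.transpose (hE : CE A E) (hA : IsStar A) (ht : ∀ a ∈ A, aᵀ ∈ A) (Y : Matrix ι ι ℂ) :
    E Yᵀ = (E Y)ᵀ := by
  apply hE.uniq hA (ht _ (hE.mem Y))
  intro s hs
  have h1 : ((E Y)ᵀ * s).trace = (E Y * sᵀ).trace := by
    rw [← trace_transpose ((E Y)ᵀ * s), transpose_mul, transpose_transpose, trace_mul_comm]
  have h2 : (Yᵀ * s).trace = (Y * sᵀ).trace := by
    rw [← trace_transpose (Yᵀ * s), transpose_mul, transpose_transpose, trace_mul_comm]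
  rw [h1, h2, hE.tr Y _ (ht s hs)]

lemma CE.comm (hE : CE A E) (hA : IsStar A) {z : Matrix ι ι ℂ}
    (hz : z ∈ com (A : Set (Matrix ι ι ℂ))) (X : Matrix ι ι ℂ) : E (z * X) = E (X * z) := by
  apply hE.uniq hA (hE.mem _)
  intro s hs
  rw [hE.tr _ s hs, mul_assoc X z s, hz s hs, mul_assoc z X s, trace_mul_comm z, mul_assoc]

lemma CE.scalar (hspan : S_span) (hE : CE A E) (hA : IsStar A) (hF : Factor A) {z : Matrix ι ι ℂ}
    (hz : z ∈ com (A : Set (Matrix ι ι ℂ))) : ∃ c : ℂ, E z = c • (1 : Matrix ι ι ℂ) := by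
  apply scal hspan hA hF (hE.mem z)
  intro a ha
  have h1 := hE.left a ha z
  have h2 := hE.right a ha z
  rw [← h1, ← h2, hz a ha]

lemma CE.zero [Nonempty ι] (hspan : S_span) (hE : CE A E) (hA : IsStar A) (hF : Factor A)
    {z : Matrix ι ι ℂ} (hz : z ∈ com (A : Set (Matrix ι ι ℂ))) (h0 : z.trace = 0) : E z = 0 := by
  obtain ⟨c, hc⟩ := hE.scalar hspan hA hF hz
  have h1 := hE.tr z 1 hA.1
  rw [mul_one, mul_one, h0, hc, trace_smul, trace_one, smul_eq_mul] at h1
  rcases mul_eq_zero.1 h1 with h | h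
  · rw [hc, h, zero_smul]
  · exfalso
    exact Fintype.card_ne_zero (α := ι) (by exact_mod_cast h)

/-- Step 2. -/
lemma CE.mem_of [Nonempty ι] (hdc : S_dc) (hspan : S_span) (hE : CE A E) (hA : IsStar A)
    (hF : Factor A) {N : Matrix ι ι ℂ}
    (h : ∀ z ∈ com (A : Set (Matrix ι ι ℂ)), z.trace = 0 → E (N * z) = 0) : N ∈ A := by
  have hC := star_com hA
  set N' := N - E N with hN'
  have h1 : ∀ z ∈ com (A : Set (Matrix ι ι ℂ)), E (N' * z) = 0 := by
    intro z hz
    set c : ℂ := z.trace / (Fintype.card ι : ℂ) with hc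
    have hcard : (Fintype.card ι : ℂ) ≠ 0 := by exact_mod_cast Fintype.card_ne_zero
    set w := z - c • (1 : Matrix ι ι ℂ) with hw
    have hwc : w ∈ com (A : Set (Matrix ι ι ℂ)) :=
      Submodule.sub_mem _ hz (Submodule.smul_mem _ _ hC.1)
    have hwt : w.trace = 0 := by
      rw [hw, trace_sub, trace_smul, trace_one, smul_eq_mul, hc, div_mul_cancel₀ _ hcard, sub_self]
    have hz' : z = w + c • (1 : Matrix ι ι ℂ) := by rw [hw, sub_add_cancel]
    have e1 : E (N' * w) = 0 := by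
      rw [hN', sub_mul, map_sub, h w hwc hwt, hE.left _ (hE.mem N), hE.zero hspan hA hF hwc hwt,
        mul_zero, sub_zero]
    have e2 : E N' = 0 := by
      rw [hN', map_sub, hE.fix _ (hE.mem N), sub_self]
    rw [hz', mul_add, map_add, e1, mul_smul_comm, mul_one, map_smul, e2, smul_zero, add_zero]
  -- the span of the products
  set W : Submodule ℂ (Matrix ι ι ℂ) := Submodule.span ℂ
    {x | ∃ z ∈ com (A : Set (Matrix ι ι ℂ)), ∃ a ∈ A, x = z * a} with hW
  have hgen : ∀ z ∈ com (A : Set (Matrix ι ι ℂ)), ∀ a ∈ A, z * a ∈ W := fun z hz a ha =>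
    Submodule.subset_span ⟨z, hz, a, ha, rfl⟩
  have hWs : IsStar W := by
    refine ⟨?_, ?_, ?_⟩
    · have := hgen 1 hC.1 1 hA.1
      rwa [mul_one] at this
    · intro x hx y hy
      induction hx using Submodule.span_induction with
      | mem x hx =>
        obtain ⟨z, hz, a, ha, rfl⟩ := hx
        induction hy using Submodule.span_induction with
        | mem y hy =>
          obtain ⟨z', hz', a', ha', rfl⟩ := hy
          have : z * a * (z' * a') = z * z' * (a * a') := by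
            rw [mul_assoc z a, ← mul_assoc a z', ← hz' a ha, mul_assoc z' a, ← mul_assoc z]
          rw [this]
          exact hgen _ (hC.2.1 z hz z' hz') _ (hA.2.1 a ha a' ha')
        | zero =>
          rw [mul_zero]
          exact W.zero_mem
        | add y y' _ _ h h' =>
          rw [mul_add]
          exact W.add_mem h h'
        | smul c y _ h =>
          rw [mul_smul_comm]
          exact W.smul_mem c h
      | zero =>
        rw [zero_mul]
        exact W.zero_mem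
      | add x x' _ _ h h' =>
        rw [add_mul]
        exact W.add_mem h h'
      | smul c x _ h =>
        rw [smul_mul_assoc]
        exact W.smul_mem c h
    · intro x hx
      induction hx using Submodule.span_induction with
      | mem x hx =>
        obtain ⟨z, hz, a, ha, rfl⟩ := hx
        rw [conjTranspose_mul, ← hC.2.2 z hz _ (hA.2.2 a ha)]
        exact hgen _ (hC.2.2 z hz) _ (hA.2.2 a ha)
      | zero =>
        rw [conjTranspose_zero]
        exact W.zero_mem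
      | add x x' _ _ h h' =>
        rw [conjTranspose_add]
        exact W.add_mem h h'
      | smul c x _ h =>
        rw [conjTranspose_smul]
        exact W.smul_mem _ h
  have hcomW : ∀ y ∈ com (W : Set (Matrix ι ι ℂ)), ∃ c : ℂ, y = c • (1 : Matrix ι ι ℂ) := by
    intro y hy
    have ha : y ∈ com (A : Set (Matrix ι ι ℂ)) := by
      intro a ha
      have := hgen 1 hC.1 a ha
      rw [one_mul] at this
      exact hy a this
    have hb : y ∈ A := by
      apply hdc ι A hA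
      intro z hz
      have := hgen z hz 1 hA.1
      rw [mul_one] at this
      exact hy z this
    exact scal hspan hA hF hb ha
  have htop : ∀ X, X ∈ W := by
    intro X
    apply hdc ι W hWs
    intro y hy
    obtain ⟨c, rfl⟩ := hcomW y hy
    rw [mul_smul_comm, smul_mul_assoc, mul_one, one_mul]
  have hvan : ∀ x ∈ W, (N' * x).trace = 0 := by
    intro x hx
    induction hx using Submodule.span_induction with
    | mem x hx =>
      obtain ⟨z, hz, a, ha, rfl⟩ := hx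
      rw [← mul_assoc, ← hE.tr _ a ha, h1 z hz, zero_mul, trace_zero]
    | zero => rw [mul_zero, trace_zero]
    | add x x' _ _ h h' => rw [mul_add, trace_add, h, h', add_zero]
    | smul c x _ h => rw [mul_smul_comm, trace_smul, h, smul_zero]
  have h0 : N' = 0 := zero_of_trace (hvan _ (htop _))
  have : N = E N := sub_eq_zero.1 h0
  rw [this]
  exact hE.mem N

end gen

section skew
variable {p q : ℕ} (G : Gr p q)

lemma mem_kk {D : Matrix (Fin q) (Fin q) ℂ} : D ∈ G.kk ↔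
    ((0, D) : Matrix (Fin p) (Fin p) ℂ × Matrix (Fin q) (Fin q) ℂ) ∈ G.h0 := Iff.rfl

lemma kk_skew {D : Matrix (Fin q) (Fin q) ℂ} (h : D ∈ G.kk) : Dᵀ = -D :=
  G.skew0 _ ((mem_kk G).1 h)

lemma kk_star {D : Matrix (Fin q) (Fin q) ℂ} (h : D ∈ G.kk) : Dᴴ ∈ G.kk := by
  have := G.star0 _ ((mem_kk G).1 h)
  rw [conjTranspose_zero] at this
  exact this

/-- the trace form -/
def tf (S : Submodule ℂ (Matrix (Fin q) (Fin q) ℂ)) : LinearMap.BilinForm ℂ S :=
  LinearMap.mk₂ ℂ (fun x y => ((x : Matrix (Fin q) (Fin q) ℂ) * (y : Matrix (Fin q) (Fin q) ℂ)).trace)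
    (fun x x' y => by simp [add_mul]) (fun c x y => by simp)
    (fun x y y' => by simp [mul_add]) (fun c x y => by simp)

lemma tf_apply (S : Submodule ℂ (Matrix (Fin q) (Fin q) ℂ)) (x y : S) :
    tf S x y = ((x : Matrix (Fin q) (Fin q) ℂ) * (y : Matrix (Fin q) (Fin q) ℂ)).trace := rfl

/-- there is no Clifford algebra with four generators -/
lemma no_clifford {q : ℕ} (hq : 0 < q) {D₁ D₂ D₃ D₄ : Matrix (Fin q) (Fin q) ℂ}
    {r₁ r₂ r₃ s₃ s₄ : ℂ} (h1 : D₁ * D₁ = r₁ • 1) (h2 : D₂ * D₂ = r₂ • 1) (hr1 : r₁ ≠ 0)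
    (hr2 : r₂ ≠ 0) (h3 : D₁ * D₂ * D₃ = s₃ • 1) (h4 : D₁ * D₂ * D₄ = s₄ • 1)
    (h33 : D₃ * D₃ = r₃ • 1) (hr3 : r₃ ≠ 0) (h34 : D₃ * D₄ + D₄ * D₃ = 0) : D₄ = 0 := by
  have e3 : (r₁ * r₂) • D₃ = s₃ • (D₂ * D₁) := by
    have : D₂ * D₁ * (D₁ * D₂ * D₃) = (r₁ * r₂) • D₃ := by
      calc D₂ * D₁ * (D₁ * D₂ * D₃) = D₂ * (D₁ * D₁) * D₂ * D₃ := by
            simp only [mul_assoc]
        _ = (r₁ * r₂) • D₃ := by
            rw [h1, mul_smul_comm, mul_one, smul_mul_assoc, h2, smul_smul, smul_mul_assoc, one_mul]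
    rw [← this, h3, mul_smul_comm, mul_one]
  have e4 : (r₁ * r₂) • D₄ = s₄ • (D₂ * D₁) := by
    have : D₂ * D₁ * (D₁ * D₂ * D₄) = (r₁ * r₂) • D₄ := by
      calc D₂ * D₁ * (D₁ * D₂ * D₄) = D₂ * (D₁ * D₁) * D₂ * D₄ := by
            simp only [mul_assoc]
        _ = (r₁ * r₂) • D₄ := by
            rw [h1, mul_smul_comm, mul_one, smul_mul_assoc, h2, smul_smul, smul_mul_assoc, one_mul]
    rw [← this, h4, mul_smul_comm, mul_one]
  have hr : r₁ * r₂ ≠ 0 := mul_ne_zero hr1 hr2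
  have e5 : s₃ • D₄ = s₄ • D₃ := by
    have h5 : (r₁ * r₂) • (s₃ • D₄) = (r₁ * r₂) • (s₄ • D₃) := by
      rw [smul_comm, e4, smul_comm (r₁ * r₂) s₄, e3, smul_comm]
    exact smul_right_injective _ hr h5
  have hs3 : s₃ ≠ 0 := by
    rintro rfl
    rw [zero_smul] at e3
    have h0 : D₃ = 0 := by
      rcases smul_eq_zero.1 e3 with h | h
      · exact absurd h hr
      · exact h
    rw [h0, mul_zero] at h33
    have : Nonempty (Fin q) := ⟨⟨0, hq⟩⟩
    rcases smul_eq_zero.1 h33.symm with h | h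
    · exact hr3 h
    · exact one_ne_zero h
  -- `D₄` is a multiple of `D₃`
  have e6 : D₄ = (s₃⁻¹ * s₄) • D₃ := by
    rw [mul_smul, ← e5, smul_smul, inv_mul_cancel₀ hs3, one_smul]
  rw [e6, mul_smul_comm, smul_mul_assoc, h33, ← two_smul ℂ, smul_smul, smul_smul] at h34
  have : Nonempty (Fin q) := ⟨⟨0, hq⟩⟩
  rcases smul_eq_zero.1 h34 with h | h
  · have h7 : s₃⁻¹ * s₄ = 0 := by
      rcases mul_eq_zero.1 h with h | h
      · rcases mul_eq_zero.1 h with h | h
        · exact absurd h two_ne_zero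
        · exact h
      · exact absurd h hr3
    rw [e6, h7, zero_smul]
  · exact absurd h one_ne_zero

lemma tri {X Y Z : Matrix (Fin q) (Fin q) ℂ} (hx : Xᵀ = -X) (hy : Yᵀ = -Y) (hz : Zᵀ = -Z)
    (hxy : X * Y = -(Y * X)) (hxz : X * Z = -(Z * X)) (hyz : Y * Z = -(Z * Y)) :
    (X * Y * Z)ᵀ = X * Y * Z := by
  rw [transpose_mul, transpose_mul, hx, hy, hz, neg_mul_neg, neg_mul]
  calc -(Z * (Y * X)) = (-(Z * Y)) * X := by rw [neg_mul, mul_assoc]
    _ = Y * Z * X := by rw [← hyz]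
    _ = -(Y * (-(Z * X))) := by rw [mul_neg, neg_neg, mul_assoc]
    _ = -(Y * X) * Z := by rw [← hxz, neg_mul, mul_assoc]
    _ = X * Y * Z := by rw [← hxy]

lemma contra_skew {A : Submodule ℂ (Matrix (Fin q) (Fin q) ℂ)} (hq : 0 < q) (hadm : G.Adm A)
    (h4 : 4 ≤ finrank ℂ G.kk) (h : ∀ y ∈ A, ∃ c : ℂ, y + yᵀ = c • 1) : False := by
  have : Nonempty (Fin q) := ⟨⟨0, hq⟩⟩
  have hsymm : LinearMap.IsSymm (tf G.kk) := ⟨fun x y => by
    simp only [RingHom.id_apply, tf_apply]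
    exact trace_mul_comm _ _⟩
  obtain ⟨v, hv⟩ := LinearMap.BilinForm.exists_orthogonal_basis hsymm
  have hort : ∀ i j, i ≠ j → tf G.kk (v i) (v j) = 0 := by
    intro i j hij
    exact hv hij
  have hac : ∀ x y : G.kk, ∃ c : ℂ, (x : Matrix (Fin q) (Fin q) ℂ) * y + y * x = c • 1 ∧
      2 * tf G.kk x y = c * q := by
    intro x y
    obtain ⟨c, hc⟩ := h _ (hadm.star.2.1 _ (hadm.kle x.2) _ (hadm.kle y.2))
    rw [transpose_mul, kk_skew G x.2, kk_skew G y.2, neg_mul_neg] at hc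
    refine ⟨c, hc, ?_⟩
    have h1 := congrArg trace hc
    rw [trace_add, trace_mul_comm (y : Matrix (Fin q) (Fin q) ℂ), trace_smul, trace_one,
      Fintype.card_fin, smul_eq_mul, ← two_mul] at h1
    exact h1
  have hqc : (q : ℂ) ≠ 0 := by exact_mod_cast hq.ne'
  have hanti : ∀ i j, i ≠ j → (v i : Matrix (Fin q) (Fin q) ℂ) * v j = -(v j * v i) := by
    intro i j hij
    obtain ⟨c, hc, ht⟩ := hac (v i) (v j)
    rw [hort i j hij, mul_zero] at ht
    have hc0 : c = 0 := by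
      rcases mul_eq_zero.1 ht.symm with h | h
      · exact h
      · exact absurd h hqc
    rw [hc0, zero_smul] at hc
    exact eq_neg_of_add_eq_zero_left hc
  have hsq : ∀ i, ∃ r : ℂ, r ≠ 0 ∧ (v i : Matrix (Fin q) (Fin q) ℂ) * v i = r • 1 := by
    intro i
    obtain ⟨c, hc, ht⟩ := hac (v i) (v i)
    refine ⟨c / 2, ?_, ?_⟩
    · intro h0
      have hc0 : c = 0 := by
        rcases div_eq_zero_iff.1 h0 with h | h
        · exact h
        · exact absurd h two_ne_zero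
      rw [hc0, zero_mul] at ht
      have hself : tf G.kk (v i) (v i) = 0 := by
        rcases mul_eq_zero.1 ht with h | h
        · exact absurd h two_ne_zero
        · exact h
      -- then `v i` is orthogonal to everything
      have hall : ∀ y : G.kk, tf G.kk (v i) y = 0 := by
        intro y
        have hlin : tf G.kk (v i) = 0 := by
          apply v.ext
          intro j
          rw [LinearMap.zero_apply]
          by_cases hij : i = j
          · rw [← hij]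
            exact hself
          · exact hort i j hij
        rw [hlin, LinearMap.zero_apply]
      have h1 := hall ⟨((v i : Matrix (Fin q) (Fin q) ℂ))ᴴ, kk_star G (v i).2⟩
      rw [tf_apply] at h1
      exact v.ne_zero i (Subtype.ext (zero_of_trace h1))
    · rw [← two_smul ℂ] at hc
      rw [div_eq_inv_mul, mul_smul, ← hc, smul_smul, inv_mul_cancel₀ two_ne_zero, one_smul]
  have hn : 3 < finrank ℂ G.kk := h4
  set i₁ : Fin (finrank ℂ G.kk) := ⟨0, by omega⟩
  set i₂ : Fin (finrank ℂ G.kk) := ⟨1, by omega⟩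
  set i₃ : Fin (finrank ℂ G.kk) := ⟨2, by omega⟩
  set i₄ : Fin (finrank ℂ G.kk) := ⟨3, by omega⟩
  have n12 : i₁ ≠ i₂ := by simp [i₁, i₂]
  have n13 : i₁ ≠ i₃ := by simp [i₁, i₃]
  have n14 : i₁ ≠ i₄ := by simp [i₁, i₄]
  have n23 : i₂ ≠ i₃ := by simp [i₂, i₃]
  have n24 : i₂ ≠ i₄ := by simp [i₂, i₄]
  have n34 : i₃ ≠ i₄ := by simp [i₃, i₄]
  have htri : ∀ j, i₁ ≠ j → i₂ ≠ j → ∃ s : ℂ,
      (v i₁ : Matrix (Fin q) (Fin q) ℂ) * v i₂ * v j = s • 1 := by
    intro j h1 h2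
    have hm : (v i₁ : Matrix (Fin q) (Fin q) ℂ) * v i₂ * v j ∈ A :=
      hadm.star.2.1 _ (hadm.star.2.1 _ (hadm.kle (v i₁).2) _ (hadm.kle (v i₂).2)) _
        (hadm.kle (v j).2)
    obtain ⟨c, hc⟩ := h _ hm
    have htr := tri (kk_skew G (v i₁).2) (kk_skew G (v i₂).2) (kk_skew G (v j).2)
      (hanti i₁ i₂ n12) (hanti i₁ j h1) (hanti i₂ j h2)
    rw [htr, ← two_smul ℂ] at hc
    refine ⟨c / 2, ?_⟩
    rw [div_eq_inv_mul, mul_smul, ← hc, smul_smul, inv_mul_cancel₀ two_ne_zero, one_smul]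
  obtain ⟨r₁, hr1, h11⟩ := hsq i₁
  obtain ⟨r₂, hr2, h22⟩ := hsq i₂
  obtain ⟨r₃, hr3, h33⟩ := hsq i₃
  obtain ⟨s₃, hs3⟩ := htri i₃ n13 n23
  obtain ⟨s₄, hs4⟩ := htri i₄ n14 n24
  have h0 := no_clifford hq h11 h22 hr1 hr2 hs3 hs4 h33 hr3
    (by rw [hanti i₃ i₄ n34, neg_add_cancel])
  exact v.ne_zero i₄ (Subtype.ext h0)

end skew

theorem lg : S_exp → S_dc → S_span → S_simp → S_lg := by
  intro hexp hdc hspan hsimp p q G A hadm hF h4 F hFm F' hFm'
  have hA := hadm.star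
  rcases Nat.eq_zero_or_pos q with hq | hq
  · subst hq
    have : F'ᴴ * F = 0 := Subsingleton.elim _ _
    rw [this]
    exact A.zero_mem
  have : Nonempty (Fin q) := ⟨⟨0, hq⟩⟩
  obtain ⟨E, e1, e2, e3, e4, e5⟩ := hexp (Fin q) A hA
  have hE : CE A E := ⟨e1, e2, e3, e4, e5⟩
  have hC := star_com hA
  have hCt : ∀ z ∈ com (A : Set (Matrix (Fin q) (Fin q) ℂ)),
      zᵀ ∈ com (A : Set (Matrix (Fin q) (Fin q) ℂ)) := by
    intro z hz s hs
    have h1 := congrArg transpose (hz sᵀ (hadm.tr s hs))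
    rw [transpose_mul, transpose_mul, transpose_transpose] at h1
    exact h1.symm
  by_contra hN
  set N := F'ᴴ * F with hNdef
  -- a good `z`
  have hex : ∃ z ∈ com (A : Set (Matrix (Fin q) (Fin q) ℂ)), z.trace = 0 ∧ E (N * z) ≠ 0 := by
    by_contra hcon
    push Not at hcon
    exact hN (hE.mem_of hdc hspan hA hF hcon)
  obtain ⟨z₀, hz0, ht0, hn0⟩ := hex
  have hex2 : ∃ z ∈ com (A : Set (Matrix (Fin q) (Fin q) ℂ)), ∃ σ : ℂ, (σ = 1 ∨ σ = -1) ∧
      z.trace = 0 ∧ E (N * z) ≠ 0 ∧ zᵀ = σ • z := by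
    have hsplit : E (N * (z₀ + z₀ᵀ)) ≠ 0 ∨ E (N * (z₀ - z₀ᵀ)) ≠ 0 := by
      by_contra hcon
      push Not at hcon
      have h1 : E (N * (z₀ + z₀ᵀ)) + E (N * (z₀ - z₀ᵀ)) = (2 : ℂ) • E (N * z₀) := by
        rw [← map_add, ← mul_add, ← map_smul, ← mul_smul_comm]
        congr 2
        rw [two_smul]
        abel
      rw [hcon.1, hcon.2, add_zero] at h1
      rcases smul_eq_zero.1 h1.symm with h | h
      · exact two_ne_zero h
      · exact hn0 h
    rcases hsplit with h | h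
    · refine ⟨z₀ + z₀ᵀ, Submodule.add_mem _ hz0 (hCt _ hz0), 1, Or.inl rfl, ?_, h, ?_⟩
      · rw [trace_add, trace_transpose, ht0, add_zero]
      · rw [transpose_add, transpose_transpose, one_smul, add_comm]
    · refine ⟨z₀ - z₀ᵀ, Submodule.sub_mem _ hz0 (hCt _ hz0), -1, Or.inr rfl, ?_, h, ?_⟩
      · rw [trace_sub, trace_transpose, ht0, sub_zero]
      · rw [transpose_sub, transpose_transpose, neg_one_smul, neg_sub]
  obtain ⟨z, hz, σ, hσ, ht, hn, hzt⟩ := hex2
  set ψ : Matrix (Fin q) (Fin q) ℂ → Matrix (Fin q) (Fin q) ℂ := fun X => E (X * z) with hψ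
  have hψA : ∀ a ∈ A, ψ a = 0 := by
    intro a ha
    simp only [hψ]
    rw [hE.left a ha, hE.zero hspan hA hF hz ht, mul_zero]
  have hψl : ∀ a ∈ A, ∀ X, ψ (a * X) = a * ψ X := by
    intro a ha X
    simp only [hψ]
    rw [mul_assoc, hE.left a ha]
  have hψr : ∀ a ∈ A, ∀ X, ψ (X * a) = ψ X * a := by
    intro a ha X
    simp only [hψ]
    rw [mul_assoc, ← hz a ha, ← mul_assoc, hE.right a ha]
  have hψt : ∀ X, ψ Xᵀ = σ • (ψ X)ᵀ := by
    intro X
    simp only [hψ]
    rw [← hE.transpose hA hadm.tr, transpose_mul, hzt, smul_mul_assoc, map_smul, hE.comm hA hz,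
      smul_smul]
    rcases hσ with rfl | rfl <;> simp
  have hψc : ∀ X, (∀ a ∈ A, X * a - a * X ∈ A) → ∃ c : ℂ, ψ X = c • 1 := by
    intro X hX
    have h1 : X - E X ∈ com (A : Set (Matrix (Fin q) (Fin q) ℂ)) := by
      intro a ha
      have h2 : X * a - a * X = E X * a - a * E X := by
        rw [← hE.right a ha, ← hE.left a ha, ← map_sub, hE.fix _ (hX a ha)]
      rw [sub_mul, mul_sub, sub_eq_sub_iff_sub_eq_sub]
      rw [h2]
    obtain ⟨c, hc⟩ := hE.scalar hspan hA hF (hC.2.1 _ h1 z hz)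
    refine ⟨c, ?_⟩
    have h3 : ψ X = ψ (X - E X) + ψ (E X) := by
      simp only [hψ]
      rw [← map_add, ← add_mul, sub_add_cancel]
    rw [h3, hψA _ (hE.mem X), add_zero]
    exact hc
  -- the relation for `b ε a`
  have hrel : ∀ a ∈ A, ∀ b ∈ A, ∃ c : ℂ, σ • (b * ψ N * a)ᵀ - b * ψ N * a = c • 1 := by
    intro a ha b hb
    have m1 := hadm.mod F hFm a ha
    have m2 := hadm.mod F' hFm' bᴴ (hA.2.2 b hb)
    have m3 := G.b1s _ m1 _ m2
    have hprod : (F' * bᴴ)ᴴ * (F * a) = b * N * a := by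
      rw [conjTranspose_mul, conjTranspose_conjTranspose, hNdef]
      simp only [Matrix.mul_assoc]
    have hX := hψc ((b * N * a)ᵀ - b * N * a) (by
      intro a' ha'
      have := hadm.nor _ m3 a' ha'
      rw [hprod] at this
      exact this)
    obtain ⟨c, hc⟩ := hX
    refine ⟨c, ?_⟩
    rw [← hc]
    have h5 : ψ (b * N * a) = b * ψ N * a := by
      rw [hψr a ha, hψl b hb]
    have h6 : ψ ((b * N * a)ᵀ - b * N * a) = ψ ((b * N * a)ᵀ) - ψ (b * N * a) := by
      simp only [hψ]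
      rw [sub_mul, map_sub]
    rw [h6, hψt, h5]
  -- the ideal
  set J : Submodule ℂ (Matrix (Fin q) (Fin q) ℂ) := Submodule.span ℂ
    {x | ∃ a ∈ A, ∃ b ∈ A, x = b * ψ N * a} with hJ
  have hψN : ψ N ∈ A := hE.mem _
  have hJA : J ≤ A := by
    rw [hJ, Submodule.span_le]
    rintro x ⟨a, ha, b, hb, rfl⟩
    exact hA.2.1 _ (hA.2.1 _ hb _ hψN) _ ha
  have hJ0 : J ≠ ⊥ := by
    intro h0
    have h1 : ψ N ∈ J := Submodule.subset_span ⟨1, hA.1, 1, hA.1, by rw [one_mul, mul_one]⟩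
    rw [h0, Submodule.mem_bot] at h1
    exact hn h1
  have hJi : ∀ a ∈ A, ∀ y ∈ J, a * y ∈ J ∧ y * a ∈ J := by
    intro a ha y hy
    induction hy using Submodule.span_induction with
    | mem x hx =>
      obtain ⟨a', ha', b, hb, rfl⟩ := hx
      refine ⟨Submodule.subset_span ⟨a', ha', a * b, hA.2.1 a ha b hb, ?_⟩,
        Submodule.subset_span ⟨a' * a, hA.2.1 a' ha' a ha, b, hb, ?_⟩⟩
      · simp only [mul_assoc]
      · simp only [mul_assoc]
    | zero =>
      rw [mul_zero, zero_mul]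
      exact ⟨J.zero_mem, J.zero_mem⟩
    | add x x' _ _ h h' =>
      rw [mul_add, add_mul]
      exact ⟨J.add_mem h.1 h'.1, J.add_mem h.2 h'.2⟩
    | smul c x _ h =>
      rw [mul_smul_comm, smul_mul_assoc]
      exact ⟨J.smul_mem c h.1, J.smul_mem c h.2⟩
  have hJeq : J = A := hsimp (Fin q) A J hA hF hJA hJ0 hJi
  have hall : ∀ y ∈ A, ∃ c : ℂ, σ • yᵀ - y = c • 1 := by
    intro y hy
    rw [← hJeq] at hy
    induction hy using Submodule.span_induction with
    | mem x hx =>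
      obtain ⟨a, ha, b, hb, rfl⟩ := hx
      exact hrel a ha b hb
    | zero => exact ⟨0, by simp⟩
    | add x x' _ _ h h' =>
      obtain ⟨c, hc⟩ := h
      obtain ⟨c', hc'⟩ := h'
      refine ⟨c + c', ?_⟩
      rw [add_smul, ← hc, ← hc', transpose_add, smul_add]
      abel
    | smul d x _ h =>
      obtain ⟨c, hc⟩ := h
      refine ⟨d * c, ?_⟩
      rw [mul_smul, ← hc, transpose_smul, smul_sub, smul_comm]
  rcases hσ with h1 | h1
  · -- all elements are symmetric
    have hpos : 0 < finrank ℂ G.kk := by omega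
    have := Module.nontrivial_of_finrank_pos hpos
    obtain ⟨D, hD⟩ := exists_ne (0 : G.kk)
    obtain ⟨c, hc⟩ := hall _ (hadm.kle D.2)
    have hs := kk_skew G D.2
    rw [h1, one_smul] at hc
    have h2 := congrArg trace hc
    rw [trace_sub, trace_transpose, sub_self, trace_smul, trace_one, smul_eq_mul] at h2
    have hc0 : c = 0 := by
      rcases mul_eq_zero.1 h2.symm with h | h
      · exact h
      · exfalso
        rw [Fintype.card_fin] at h
        exact hq.ne' (by exact_mod_cast h)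
    rw [hc0, zero_smul, hs] at hc
    apply hD
    apply Subtype.ext
    have h3 : (2 : ℂ) • (D : Matrix (Fin q) (Fin q) ℂ) = 0 := by
      rw [two_smul]
      have h4 := congrArg Neg.neg hc
      rw [neg_sub, neg_zero, sub_neg_eq_add] at h4
      exact h4
    rcases smul_eq_zero.1 h3 with h | h
    · exact absurd h two_ne_zero
    · exact h
  · apply contra_skew G hq hadm h4
    intro y hy
    obtain ⟨c, hc⟩ := hall y hy
    refine ⟨-c, ?_⟩
    rw [h1, neg_one_smul] at hc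
    rw [neg_smul, ← hc]
    abel

end Pool.Agent.W507.PG
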